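import Pool.Agent.H1.C21

set_option autoImplicit false

namespace Pool.Agent.Results.MP_6cabfd_co.Third

open Pool.Agent.H1.C21

/-- A geometric `(21_4)` configuration with no polycyclic realization. -/
theorem result : ∃ I : Fin 21 → Fin 21 → Prop, IsConfig 21 4 I ∧ (∃ p L, Realizes I p L) ∧
    ∀ p L, Realizes I p L → ¬ Polycyclic p L := by
  obtain ⟨p, L, h, -⟩ := real
  exact ⟨I, config, ⟨p, L, h⟩, notPoly⟩

end Pool.Agent.Results.MP_6cabfd_co.Third
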